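import Pool.Agent.helper16.EXT.Spec3T

set_option autoImplicit false

open Finset

namespace Pool.Agent.EXT

open Pool.Agent.EXC

section

variable {K : Type} [Field K] (τ : K ≃+* K)

/-- matrices over the fixed field as matrices over the field -/
def IJC_mp : Matrix (Fin 3) (Fin 3) (K0 τ) →+* Matrix (Fin 3) (Fin 3) K := (K0 τ).subtype.mapMatrix

theorem IJC_mp_apply (M : Matrix (Fin 3) (Fin 3) (K0 τ)) (i j : Fin 3) : IJC_mp τ M i j = ((M i j : K0 τ) : K) := rfl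

theorem IJC_mp_trace (M : Matrix (Fin 3) (Fin 3) (K0 τ)) (h : M.trace = 0) : (IJC_mp τ M).trace = 0 := by
  have h1 : (IJC_mp τ M).trace = ((M.trace : K0 τ) : K) := by
    simp only [Matrix.trace, Matrix.diag_apply, Fin.sum_univ_three, IJC_mp_apply]
    push_cast
    rfl
  rw [h1, h]
  rfl

theorem IJC_mp_single (i j : Fin 3) (c : K0 τ) : IJC_mp τ (Matrix.single i j c) = Matrix.single i j (c : K) := by
  ext a b
  rw [IJC_mp_apply, Matrix.single_apply, Matrix.single_apply]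
  split_ifs <;> rfl

theorem IJC_mp_inj {M : Matrix (Fin 3) (Fin 3) (K0 τ)} (h : IJC_mp τ M = 0) : M = 0 := by
  ext a b
  have h1 := congrFun (congrFun h a) b
  rw [IJC_mp_apply] at h1
  exact h1

/-- `g` acts on the fixed vectors of the image of `i3` as `M ↦ Z M Z⁻¹` -/
def IJC_P (e1 e2 f1 f2 : Lm C6 K) (g : GF τ) (Z Z' : Matrix (Fin 3) (Fin 3) (K0 τ)) : Prop :=
  Z * Z' = 1 ∧ ∀ M : Matrix (Fin 3) (Fin 3) (K0 τ), M.trace = 0 → ∀ v : LT τ,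
    (v : Lm C6 K) = i3 C6 e1 e2 f1 f2 (IJC_mp τ M) →
    (((g : Equiv.Perm (LT τ)) v : LT τ) : Lm C6 K) = i3 C6 e1 e2 f1 f2 (IJC_mp τ (Z * M * Z'))

theorem IJC_tr {F : Type} [Field F] {Z Z' : Matrix (Fin 3) (Fin 3) F} (h : Z * Z' = 1) (M : Matrix (Fin 3) (Fin 3) F)
    (hM : M.trace = 0) : (Z * M * Z').trace = 0 := by
  have h' : Z' * Z = 1 := mul_eq_one_comm.1 h
  rw [Matrix.trace_mul_comm, ← Matrix.mul_assoc, h', Matrix.one_mul, hM]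

variable {τ}

theorem IJC_mul {e1 e2 f1 f2 : Lm C6 K} {g h : GF τ} {Z Z' W W' : Matrix (Fin 3) (Fin 3) (K0 τ)}
    (hg : IJC_P τ e1 e2 f1 f2 g Z Z') (hh : IJC_P τ e1 e2 f1 f2 h W W') :
    IJC_P τ e1 e2 f1 f2 (g * h) (Z * W) (W' * Z') := by
  refine ⟨?_, fun M hM v hv => ?_⟩
  · calc Z * W * (W' * Z') = Z * (W * W') * Z' := by simp only [Matrix.mul_assoc]
      _ = 1 := by rw [hh.1, Matrix.mul_one, hg.1]
  · change (((g : Equiv.Perm (LT τ)) ((h : Equiv.Perm (LT τ)) v) : LT τ) : Lm C6 K) = _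
    rw [hg.2 _ (IJC_tr hh.1 M hM) _ (hh.2 M hM v hv)]
    simp only [Matrix.mul_assoc]

theorem IJC_inv {e1 e2 f1 f2 : Lm C6 K} (hLT : ∀ M : Matrix (Fin 3) (Fin 3) (K0 τ), i3 C6 e1 e2 f1 f2 (IJC_mp τ M) ∈ LT τ)
    {g : GF τ} {Z Z' : Matrix (Fin 3) (Fin 3) (K0 τ)}
    (hg : IJC_P τ e1 e2 f1 f2 g Z Z') : IJC_P τ e1 e2 f1 f2 g⁻¹ Z' Z := by
  have h' : Z' * Z = 1 := mul_eq_one_comm.1 hg.1
  refine ⟨h', fun M hM v hv => ?_⟩
  have h1 := hg.2 _ (IJC_tr h' M hM) ⟨_, hLT (Z' * M * Z)⟩ rfl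
  have h2 : Z * (Z' * M * Z) * Z' = M := by
    calc Z * (Z' * M * Z) * Z' = (Z * Z') * M * (Z * Z') := by simp only [Matrix.mul_assoc]
      _ = M := by rw [hg.1, Matrix.one_mul, Matrix.mul_one]
  rw [h2, ← hv] at h1
  have h3 : (g : Equiv.Perm (LT τ)) ⟨_, hLT (Z' * M * Z)⟩ = v := Subtype.ext h1
  have h4 : ((g⁻¹ : GF τ) : Equiv.Perm (LT τ)) v = ⟨_, hLT (Z' * M * Z)⟩ := by
    rw [← h3]
    exact Equiv.symm_apply_apply _ _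
  rw [h4]

theorem IJC_pow {e1 e2 f1 f2 : Lm C6 K} {g : GF τ} {Z Z' : Matrix (Fin 3) (Fin 3) (K0 τ)}
    (hg : IJC_P τ e1 e2 f1 f2 g Z Z') (m : ℕ) : IJC_P τ e1 e2 f1 f2 (g ^ m) (Z ^ m) (Z' ^ m) := by
  induction m with
  | zero =>
    refine ⟨by simp, fun M _ v hv => ?_⟩
    simp only [pow_zero, Matrix.one_mul, Matrix.mul_one]
    exact hv
  | succ m ih =>
    rw [pow_succ, pow_succ, pow_succ']
    exact IJC_mul ih hg

end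

theorem IJC_LT (hSIG : SIG_stmt) {K : Type} [Field K] {τ : K ≃+* K} (hτ : ∀ x, τ (τ x) = x) {e1 e2 f1 f2 : Lm C6 K}
    (h1 : si τ e1 = e1) (h2 : si τ e2 = e2) (h3 : si τ f1 = f1) (h4 : si τ f2 = f2)
    (M : Matrix (Fin 3) (Fin 3) (K0 τ)) : i3 C6 e1 e2 f1 f2 (IJC_mp τ M) ∈ LT τ := by
  obtain ⟨ha, hs, -, hb, -⟩ := hSIG K τ hτ
  have hf : ∀ i j, τ (IJC_mp τ M i j) = IJC_mp τ M i j := fun i j => K0_fix τ (M i j)
  change si τ (i3 C6 e1 e2 f1 f2 (IJC_mp τ M)) = _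
  unfold i3
  simp only [ha, hs, hb, hf, map_add, h1, h2, h3, h4]

theorem IJC (hFXF : FXF_stmt) (hESF : ESF_stmt) (hGFX : GFX_stmt) (hSIG : SIG_stmt) : IJC_stmt := by
  intro K _ τ hτ h3 e1 e2 f1 f2 t t' s s' he1 he2 hf1 hf2 hS ht ht' hs hs' m hm
  have hLT := IJC_LT hSIG hτ ((hESF K τ hτ).2 e1 he1).2.2.1 ((hESF K τ hτ).2 e2 he2).2.2.1
    ((hESF K τ hτ).2 f1 hf1).2.2.1 ((hESF K τ hτ).2 f2 hf2).2.2.1
  have hb : ∀ (i j : Fin 3), i ≠ j → ∀ c : K0 τ,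
      (1 + Matrix.single i j c : Matrix (Fin 3) (Fin 3) (K0 τ)) * (1 - Matrix.single i j c) = 1 := by
    intro i j hij c
    have h0 : (Matrix.single i j c : Matrix (Fin 3) (Fin 3) (K0 τ)) * Matrix.single i j c = 0 :=
      Matrix.single_mul_single_of_ne (h := hij.symm) ..
    rw [add_mul, mul_sub, mul_sub, h0]
    simp
  have hmp : ∀ (i j : Fin 3) (c : K0 τ) (M : Matrix (Fin 3) (Fin 3) (K0 τ)),
      IJC_mp τ ((1 + Matrix.single i j c) * M * (1 - Matrix.single i j c)) =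
        (1 + Matrix.single i j (c : K)) * IJC_mp τ M * (1 - Matrix.single i j (c : K)) := by
    intro i j c M
    rw [map_mul, map_mul, map_add, map_sub, map_one, IJC_mp_single]
  have p1 : IJC_P τ e1 e2 f1 f2 t (1 + Matrix.single 0 1 1) (1 - Matrix.single 0 1 1) :=
    ⟨hb 0 1 (by decide) 1, fun M hM v hv => by
      rw [ht v, hv, hmp]
      exact (A3.g_ZEQ 6 C6 K e1 e2 f1 f2 hS 1 _ (IJC_mp_trace τ M hM)).1⟩
  have p2 : IJC_P τ e1 e2 f1 f2 t' (1 + Matrix.single 1 2 1) (1 - Matrix.single 1 2 1) :=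
    ⟨hb 1 2 (by decide) 1, fun M hM v hv => by
      rw [ht' v, hv, hmp]
      exact (A3.g_ZEQ 6 C6 K e1 e2 f1 f2 hS 1 _ (IJC_mp_trace τ M hM)).2.1⟩
  have p3 : IJC_P τ e1 e2 f1 f2 s (1 + Matrix.single 2 1 1) (1 - Matrix.single 2 1 1) :=
    ⟨hb 2 1 (by decide) 1, fun M hM v hv => by
      rw [hs v, hv, hmp]
      exact (A3.g_ZEQ 6 C6 K e1 e2 f1 f2 hS 1 _ (IJC_mp_trace τ M hM)).2.2.2⟩
  have hc : (((-1 : K0 τ)) : K) = -1 := rfl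
  have p4 : IJC_P τ e1 e2 f1 f2 s' (1 + Matrix.single 1 0 (-1)) (1 - Matrix.single 1 0 (-1)) :=
    ⟨hb 1 0 (by decide) (-1), fun M hM v hv => by
      rw [hs' v, hv, hmp, hc]
      exact (A3.g_ZEQ 6 C6 K e1 e2 f1 f2 hS (-1) _ (IJC_mp_trace τ M hM)).2.2.1⟩
  have q1 := IJC_pow (IJC_mul p2 (IJC_inv hLT p1)) 2
  have q2 := IJC_inv hLT (IJC_pow (IJC_mul p4 (IJC_inv hLT p3)) 2)
  have q := IJC_pow (IJC_mul q1 q2) m
  rw [ZJC_mat (K0 τ)] at q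
  have hz : ((t' * t⁻¹) ^ 2 * ((s' * s⁻¹) ^ 2)⁻¹) ^ m = 1 := by
    refine (hFXF K τ hτ).2 _ fun g => ?_
    have h1 := DFunLike.congr_fun hm g
    rw [← map_pow] at h1
    have h2 : ((t' * t⁻¹) ^ 2 * ((s' * s⁻¹) ^ 2)⁻¹) ^ m * g * (((t' * t⁻¹) ^ 2 * ((s' * s⁻¹) ^ 2)⁻¹) ^ m)⁻¹ = g := h1
    rw [mul_inv_eq_iff_eq_mul] at h2
    exact h2
  rw [hz] at q
  have h30 : (3 : K0 τ) ≠ 0 := by
    intro h
    apply h3
    have h5 := congrArg (fun u : K0 τ => (u : K)) h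
    exact h5
  refine A3.g_ZZM (K0 τ) h30 m fun M hM => ?_
  obtain ⟨q0, q3⟩ := q
  have h4 := q3 M hM ⟨_, hLT M⟩ rfl
  have h5 : i3 C6 e1 e2 f1 f2 (IJC_mp τ M) = i3 C6 e1 e2 f1 f2 (IJC_mp τ (!![-6, -4, -1; 8, 5, 2; 3, 2, 1] ^ m * M * _)) := h4
  have h6 := A3.g_ZIN 6 C6 K e1 e2 f1 f2 hS h3 (IJC_mp τ M - IJC_mp τ (!![-6, -4, -1; 8, 5, 2; 3, 2, 1] ^ m * M * _)) (by
    rw [Matrix.trace_sub, IJC_mp_trace τ M hM, IJC_mp_trace τ _ (IJC_tr q0 M hM), sub_zero])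
    ((ZJC_sub C6 e1 e2 f1 f2 _ _).trans (sub_eq_zero.2 h5))
  rw [← map_sub] at h6
  have h7 := sub_eq_zero.1 (IJC_mp_inj τ h6)
  have h8 := mul_eq_one_comm.1 q0
  conv_rhs => rw [h7]
  rw [Matrix.mul_assoc _ _ (_ ^ m), h8, Matrix.mul_one]

end Pool.Agent.EXT
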